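import Pool.Agent.ZRT.StmtsA
import Pool.Agent.Helper62_ZRT.XB1
import Pool.Agent.Helper35_MVZ.Vol

/-!
# ZRT, row VOL (helper35): no short geodesics between the poles implies the volume bound
-/

noncomputable section

open scoped ContDiff Topology RealInnerProductSpace
open Set MeasureTheory

namespace Pool.Agent.ZRT.H35

open Pool.Agent.RF Pool.Agent.MVS Pool.Agent.ZRT Pool.Agent.ZRT.H62

/-- two exponential maps agree -/
theorem ex_unique {G : E5 → Bil E5} {ex ex' : E5 × E5 → E5} (hG : IsCyl G) (hE : IsExp G ex)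
    (hE' : IsExp G ex') {m : E5} (hm : m ∈ Om (Fin 5)) (v : E5) : ex (m, v) = ex' (m, v) := by
  have h := Pool.Agent.MVS.H26.unq_ G hG 1 zero_le_one (fun t : ℝ => ex (m, t • v))
    (fun t : ℝ => ex' (m, t • v)) (fun t => Tf ex m v t) (fun t => Tf ex' m v t)
    (fun t _ => ⟨hE.mem m hm _, hE'.mem m hm _⟩)
    (fun t _ => ⟨(hasD_c hE hm v t).hasDerivWithinAt, (hasD_T hE hm v t).hasDerivWithinAt⟩)
    (fun t _ => ⟨(hasD_c hE' hm v t).hasDerivWithinAt, (hasD_T hE' hm v t).hasDerivWithinAt⟩)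
    (by simp only [ex_zero hE hm, ex_zero hE' hm]) (by simp only [Tf_zero hE hm, Tf_zero hE' hm])
    1 ⟨zero_le_one, le_rfl⟩
  simpa using h.1

theorem apply_eb (i j : Fin 5) : (eb i : E5) j = if j = i then 1 else 0 := by
  simp [eb]

theorem pP_apply (x : E5) (j : Fin 5) :
    (pP {0, 1, 2, 3} x) j = if j = 4 then 0 else x j := by
  fin_cases j <;> simp [pP, Finset.sum_insert, apply_eb]

theorem pN_apply (x : E5) (j : Fin 5) :
    (pN {0, 1, 2, 3} x) j = if j = 4 then x j else 0 := by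
  have hc : ({0, 1, 2, 3} : Finset (Fin 5))ᶜ = {4} := by decide
  fin_cases j <;> simp [pN, hc, pP, apply_eb]

theorem of_pP {x : E5} (h : pP {0, 1, 2, 3} x = 0) : x = x 4 • (eb 4 : E5) := by
  ext j
  by_cases hj : j = 4
  · subst hj
    simp [apply_eb]
  · have h1 := congrArg (fun y : E5 => y j) h
    simp only [pP_apply, if_neg hj] at h1
    simp only [PiLp.smul_apply, apply_eb, if_neg hj, smul_eq_mul, mul_zero]
    exact h1

theorem of_pN {x : E5} (h : pN {0, 1, 2, 3} x = 0) : x 4 = 0 := by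
  have h1 := congrArg (fun y : E5 => y 4) h
  simpa [pN_apply] using h1

theorem norm_eb4 : ‖(eb 4 : E5)‖ = 1 := by simp [eb]

theorem inner_eb4 (x : E5) : ⟪(eb 4 : E5), x⟫ = x 4 := by
  simp [eb, EuclideanSpace.inner_single_left]

theorem vol : VolStatement := by
  intro G ex hG hs hE hns
  refine Pool.Agent.MVZ.H35.vol_bound G hG hs ?_
  intro ex' hE' σ hσ hσ0 v hv hv0 hlt hz
  apply hns
  have hσ4 := of_pP hσ
  have hs0 : σ 4 ≠ 0 := by
    intro h
    rw [h, zero_smul] at hσ4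
    exact hσ0 hσ4
  obtain ⟨c, hc⟩ : ∃ c : ℝ, c = |σ 4| := ⟨_, rfl⟩
  have hc0 : 0 < c := by rw [hc]; exact abs_pos.mpr hs0
  obtain ⟨a, ha⟩ : ∃ a : E5, a = c⁻¹ • σ := ⟨_, rfl⟩
  obtain ⟨w, hw⟩ : ∃ w : E5, w = c⁻¹ • v := ⟨_, rfl⟩
  have hσa : σ = c • a := by rw [ha, smul_smul, mul_inv_cancel₀ hc0.ne', one_smul]
  have hvw : v = c • w := by rw [hw, smul_smul, mul_inv_cancel₀ hc0.ne', one_smul]
  have ha' : a = eb 4 ∨ a = -(eb 4) := by
    rcases lt_or_gt_of_ne hs0 with h | h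
    · right
      have : c⁻¹ * σ 4 = -1 := by
        rw [hc, abs_of_neg h]
        field_simp
      rw [ha, hσ4, smul_smul]
      have h2 : (σ 4 • (eb 4 : E5)) 4 = σ 4 := by simp [apply_eb]
      rw [this, neg_one_smul]
    · left
      have : c⁻¹ * σ 4 = 1 := by
        rw [hc, abs_of_pos h]
        field_simp
      rw [ha, hσ4, smul_smul]
      rw [this, one_smul]
  have hna : ‖a‖ = 1 := by
    rcases ha' with h | h <;> rw [h]
    · exact norm_eb4
    · rw [norm_neg]; exact norm_eb4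
  have ham : a ∈ Om (Fin 5) := by
    show a ≠ 0
    intro h
    rw [h, norm_zero] at hna
    exact zero_ne_one hna
  have hw4 : w 4 = 0 := by
    have := of_pN hv
    rw [hw, PiLp.smul_apply, this, smul_zero]
  have haw : ⟪a, w⟫ = (0 : ℝ) := by
    rcases ha' with h | h <;> rw [h]
    · rw [inner_eb4, hw4]
    · rw [inner_neg_left, inner_eb4, hw4, neg_zero]
  have hw0 : w ≠ 0 := by
    intro h
    rw [h, smul_zero] at hvw
    exact hv0 hvw
  have hGw : G σ v v = G a w w := by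
    rw [hσa, hvw, hG.homog c hc0 a ham]
    simp only [map_smul, _root_.smul_apply, smul_eq_mul]
    field_simp
  have hpos : 0 < G a w w := hG.metric.pos a ham w hw0
  have hex : ex' (σ, v) = c • ex (a, w) := by
    rw [ex_unique hG hE hE' ham w, hσa, hvw]
    exact (Pool.Agent.MVS.H26.hex_ G ex' hG hE').1 c hc0 a ham w
  have hn : ‖ex (a, w)‖ = 1 := by
    rw [(Pool.Agent.MVS.H26.hex_ G ex hG hE).2 a ham w haw, hna]
  have hz' : pP {0, 1, 2, 3} (ex (a, w)) = 0 := by
    rw [hex, map_smul] at hz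
    exact (smul_eq_zero.mp hz).resolve_left hc0.ne'
  have h4 := of_pP hz'
  have habs : |(ex (a, w)) 4| = 1 := by
    rw [h4, norm_smul, norm_eb4, mul_one] at hn
    have h5 : ((ex (a, w)) 4 • (eb 4 : E5)) 4 = (ex (a, w)) 4 := by simp [apply_eb]
    exact hn
  refine ⟨a, w, ha', ?_, ?_, ?_⟩
  · exact Real.sqrt_pos.mpr hpos
  · rw [nm, Real.sqrt_lt' Real.pi_pos, ← hGw]
    exact hlt
  · rcases (abs_eq zero_le_one).mp habs with h | h
    · left
      rw [h4, h, one_smul]
    · right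
      rw [h4, h, neg_one_smul]

end Pool.Agent.ZRT.H35
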