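import Pool.Agent.ZRT.StmtsB
import Pool.Agent.Helper26_MVS.All
import Pool.Agent.Helper62_ZRT.XB1
import Pool.Agent.Helper29_ZRT.XSH
import Pool.Agent.Helper40_ZRT.XIS
import Pool.Agent.Helper62_ZRT.XGA
import Pool.Agent.Helper41_ZRT.XNM
import Pool.Agent.Helper68_ZRT.XFL
import Pool.Agent.Helper24_ZRT.XFB
import Pool.Agent.Helper9_ZRT.RNB
import Pool.Agent.Helper68_ZRT.CSH
import Pool.Agent.Helper41_ZRT.XLO
import Pool.Agent.Helper87_ZRT.XUP
import Pool.Agent.Helper47_ZRT.XDE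
import Pool.Agent.Helper19_ZRT.XPO
import Pool.Agent.Helper26_ZRT.XHA
import Pool.Agent.Helper26_ZRT.XHB
import Pool.Agent.Helper80_ZRT.XHC
import Pool.Agent.Helper11_ZRT.PSI
import Pool.Agent.Helper55_ZRT.CYP
import Pool.Agent.Helper51_ZRT.VLP
import Pool.Agent.Helper70_ZRT.ISP
import Pool.Agent.Helper81_ZRT.YB2
import Pool.Agent.Helper74_ZRT.YB4
import Pool.Agent.Helper39_ZRT.YB5
import Pool.Agent.Helper81_ZRT.YRO
import Pool.Agent.Helper55_ZRT.YPW
import Pool.Agent.Helper46_ZRT.YDI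
import Pool.Agent.Helper21_ZRT.LNB
import Pool.Agent.Helper62_ZRT.LNC
import Pool.Agent.Helper6_ZRT.LUN
import Pool.Agent.Helper24_ZRT.LEX
import Pool.Agent.Helper86_ZRT.LTP
import Pool.Agent.Helper44_ZRT.LSM
import Pool.Agent.Helper86_ZRT.HYP
import Pool.Agent.Helper26_ZRT.STU
import Pool.Agent.Helper26_ZRT.CH1
import Pool.Agent.Helper26_ZRT.CH2
import Pool.Agent.Helper91_ZRT.CH3
import Pool.Agent.Helper33_ZRT.CH4
import Pool.Agent.Helper92_ZRT.CH5
import Pool.Agent.Helper25_ZRT.CH6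
import Pool.Agent.Helper60_ZRT.COR
import Pool.Agent.Helper67_ZRT.MNZ
import Pool.Agent.Helper26_ZRT.MNA
import Pool.Agent.Helper81_ZRT.MAI
import Pool.Agent.Helper26_ZRT.YLB
import Pool.Agent.Helper26_ZRT.FIN
import Pool.Agent.Helper35_ZRT.VOL

/-!
# ZRT: assembly (MP_33f2b9_gt, metrics on `S^4` with one isometry of small rotation angle)
-/

noncomputable section

open scoped ContDiff Topology RealInnerProductSpace
open Set MeasureTheory

namespace Pool.Agent.ZRT.H35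

open Pool.Agent.RF Pool.Agent.MVS Pool.Agent.ZRT

theorem xb1_ : Xb1Statement := H62.xb1

theorem xsh_ : XshStatement := H29.xsh xb1_

theorem xis_ : XisStatement := H40.xis

theorem xga_ : XgaStatement := H62.xga

theorem xnm_ : XnmStatement := H41.xnm xb1_ xga_

theorem xfl_ : XflStatement :=
  H68.xfl xb1_ Pool.Agent.MVS.H26.mco_ Pool.Agent.MVS.H26.jeq_

theorem xfb_ : XfbStatement := H24.xfb xb1_ xga_ xfl_

theorem rnb_ : RnbStatement := H9.rnb

theorem csh_ : CshStatement := H68.csh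

theorem xlo_ : XloStatement := H41.xlo xb1_ xfl_ xfb_

theorem xup_ : XupStatement := H87.xup xb1_ xfl_ xfb_ rnb_ csh_

theorem xde_ : XdeStatement := H47.xde xb1_ xlo_

theorem xpo_ : XpoStatement := H19.xpo xb1_ xfb_ xup_

theorem xha_ : XhaStatement := H26.xha xga_

theorem xhb_ : XhbStatement := H26.xhb xb1_ xfb_ xlo_

theorem xhc_ : XhcStatement := H80.xhc xb1_ xha_ xhb_

theorem lnb_ : LnbStatement := H21.lnb xb1_ xnm_ xde_

theorem lnc_ : LncStatement := H62.lnc lnb_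

theorem lun_ : LunStatement := H6.lun xde_

theorem lex_ : LexStatement := H24.lex xde_ lnc_

theorem ltp_ : LtpStatement := H86.ltp xde_

theorem lsm_ : LsmStatement := H44.lsm xde_

theorem hyp_ : HypStatement := H86.hyp

theorem stu_ : StuStatement := H26.stu

theorem ch1_ : Ch1Statement := H26.ch1 xb1_ xpo_ lex_

theorem ch2_ : Ch2Statement := H26.ch2 xb1_ xsh_ lex_ ltp_ lun_ ch1_

theorem ch3_ : Ch3Statement := H91.ch3 xb1_ xpo_ lex_ lnb_

theorem ch4_ : Ch4Statement := H33.ch4 xb1_ xsh_ lex_ ltp_ lun_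

theorem ch5_ : Ch5Statement := H92.ch5 xb1_ xhc_ lsm_ stu_

theorem ch6_ : Ch6Statement := H25.ch6 xb1_ xsh_ lun_

theorem cor_ : CorStatement := H60.cor xb1_ hyp_ ch2_ ch3_ ch4_ ch5_ ch6_

theorem mnz_ : MnzStatement := H67.mnz xb1_

theorem mna_ : MnaStatement := H26.mna xb1_ mnz_

theorem main_ : MainStatement := H81.mai xb1_ xis_ cor_ mna_

theorem ylb_ : YlbStatement :=
  H26.ylb (H81.yb2 Pool.Agent.MVS.H26.par_) H74.yb4 H39.yb5 H11.psi H55.cyp H51.vlp H70.isp
    main_ vol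

theorem fin_ : FinStatement := H26.fin ylb_ H81.yro H55.ypw H46.ydi

end Pool.Agent.ZRT.H35
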