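import Pool.Agent.Helper26_ZRT.ORD

/-!
# ZRT (helper35): sets of isometries with two common fixed points, official form
-/

noncomputable section

open scoped ContDiff Topology RealInnerProductSpace
open Set MeasureTheory

namespace Pool.Agent.MinVolSphere

open Pool.Agent.SecondKind

/-- `p` is a common fixed point of the maps in `F`, and every nonzero tangent vector `v` at `p` is
rotated by an angle in `(0, θ]` by some `φ ∈ F`: `dφ v ≠ v` and `g(v, dφ v) ≥ cos θ g(v,v)` -/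
def RotSet (g : Form 4) (F : Set ((Fin 5 → ℝ) → Fin 5 → ℝ)) (θ : ℝ) (p : Fin 5 → ℝ) : Prop :=
  OnSphere p ∧ (∀ φ ∈ F, φ p = p) ∧ ∀ v, Tangent p v → v ≠ 0 →
    ∃ φ ∈ F, fderiv ℝ φ p v ≠ v ∧ Real.cos θ * g p v v ≤ g p v (fderiv ℝ φ p v)

end Pool.Agent.MinVolSphere

namespace Pool.Agent.ZRT.H35

open Pool.Agent.ZRT Pool.Agent.RF Pool.Agent.MVS Pool.Agent.SecondKind Pool.Agent.MinVolSphere

/-- the group version of Theorem Z in official form -/
theorem grp (g : Form 4) (F : Set ((Fin 5 → ℝ) → Fin 5 → ℝ)) (p q : Fin 5 → ℝ)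
    (hg : IsMetric g) (hK : AbsSecLeOne g) (hF : ∀ φ ∈ F, IsIso g φ) (hpq : p ≠ q)
    (hp : RotSet g F (2 / 5) p) (hq : RotSet g F (2 / 5) q) :
    8 * Real.pi ^ 2 / 3 ≤ Pool.Agent.MinVolSphere.vol g := by
  obtain ⟨G, hG, hGg⟩ := Pool.Agent.MVS.H26.br1_ g hg
  obtain ⟨hle, hge⟩ := H81.yb2 Pool.Agent.MVS.H26.par_ g G hg hG hGg hK
  have hne : vc p ≠ vc q := fun h => hpq ((EuclideanSpace.equiv (Fin 5) ℝ).symm.injective h)
  obtain ⟨S, hS⟩ : ∃ S : Set (E5 → E5), S = {f : E5 → E5 | ∃ φ ∈ F, IsIsoC G f ∧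
      (∀ x, OnSphere x → f (vc x) = vc (φ x)) ∧
      ∀ x v, Tangent x v → fderiv ℝ f (vc x) (vc v) = vc (fderiv ℝ φ x v)} := ⟨_, rfl⟩
  have hiso : ∀ f ∈ S, IsIsoC G f := by
    intro f hf
    rw [hS] at hf
    obtain ⟨φ, -, h, -⟩ := hf
    exact h
  have tr : ∀ x, RotSet g F (2 / 5) x → H26.Mov G S (2 / 5) (vc x) := by
    intro x hx
    obtain ⟨hSx, hfix, hrot⟩ := hx
    have hnx : ‖vc x‖ = 1 := H26.norm_vc hSx
    have hxO : vc x ∈ Om (Fin 5) := H26.om_of_norm hnx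
    refine ⟨hnx, ?_, ?_⟩
    · intro f hf
      rw [hS] at hf
      obtain ⟨φ, hφ, -, h, -⟩ := hf
      rw [h x hSx, hfix φ hφ]
    · intro v hv hv0
      obtain ⟨u, rfl⟩ : ∃ u : Fin 5 → ℝ, v = vc u := ⟨fun i => v i, (H39.vc_surj v).symm⟩
      rw [H39.inner_vc] at hv
      have hT : Tangent x u := ⟨hSx, hv⟩
      have hu0 : u ≠ 0 := by
        intro h
        apply hv0
        rw [h]
        ext i
        simp [H39.vc_apply]
      obtain ⟨φ, hφ, h1, h2⟩ := hrot u hT hu0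
      obtain ⟨f, hf, hf1, hf2⟩ := H74.yb4 g G φ hg hG hGg (hF φ hφ)
      have hfx : f (vc x) = vc x := by rw [hf1 x hSx, hfix φ hφ]
      have hT' : Tangent x (fderiv ℝ φ x u) := by
        refine ⟨hSx, ?_⟩
        rw [← H39.inner_vc, ← hf2 x u hT]
        have := H39.inner_fderiv hf (vc x) hxO (vc u)
        rw [hfx] at this
        rw [this, H39.inner_vc, hv]
      refine ⟨f, ?_, ?_, ?_⟩
      · rw [hS]
        exact ⟨φ, hφ, hf, hf1, hf2⟩
      · rw [hf2 x u hT]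
        exact fun h => h1 (H39.vc_inj h)
      · rw [hf2 x u hT, hGg x u u hT hT, hGg x u _ hT hT']
        exact h2
  have hb := H26.bndG G hG hle hge S hiso (vc p) (vc q) hne (tr p hp) (tr q hq)
  rw [Pool.Agent.MVS.H26.br3_ g G hg hG hGg] at hb
  exact hb

/-- Dirichlet for two angles -/
theorem dir2 (α β : ℝ) : ∃ (k : ℕ) (i j : ℤ), 0 < k ∧ k ≤ 256 ∧
    |k * α - i * (2 * Real.pi)| ≤ 2 / 5 ∧ |k * β - j * (2 * Real.pi)| ≤ 2 / 5 := by
  let f : ℕ → ℤ × ℤ := fun k =>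
    (⌊16 * Int.fract ((k : ℝ) * α / (2 * Real.pi))⌋, ⌊16 * Int.fract ((k : ℝ) * β / (2 * Real.pi))⌋)
  have hmaps : ∀ k ∈ Finset.range 257, f k ∈ (Finset.Ico (0 : ℤ) 16 ×ˢ Finset.Ico (0 : ℤ) 16) := by
    intro k _
    have key : ∀ z : ℝ, ⌊16 * Int.fract z⌋ ∈ Finset.Ico (0 : ℤ) 16 := by
      intro z
      have h1 := Int.fract_nonneg z
      have h2 := Int.fract_lt_one z
      rw [Finset.mem_Ico]
      constructor
      · exact Int.floor_nonneg.mpr (by linarith)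
      · rw [Int.floor_lt]
        push_cast
        linarith
    rw [Finset.mem_product]
    exact ⟨key _, key _⟩
  obtain ⟨k1, hk1, k2, hk2, hne, heq⟩ := Finset.exists_ne_map_eq_of_card_lt_of_maps_to
    (by rw [Finset.card_product]; simp) hmaps
  wlog hlt : k1 < k2 generalizing k1 k2
  · exact this k2 hk2 k1 hk1 hne.symm heq.symm (by omega)
  have hk2' := Finset.mem_range.mp hk2
  have hcast : ((k2 - k1 : ℕ) : ℝ) = (k2 : ℝ) - k1 := by rw [Nat.cast_sub hlt.le]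
  have hpi := Real.pi_pos
  have hpi2 : Real.pi < 3.15 := Real.pi_lt_d2
  have key : ∀ γ : ℝ, ⌊16 * Int.fract ((k1 : ℝ) * γ / (2 * Real.pi))⌋ =
      ⌊16 * Int.fract ((k2 : ℝ) * γ / (2 * Real.pi))⌋ →
      ∃ i : ℤ, |((k2 - k1 : ℕ) : ℝ) * γ - i * (2 * Real.pi)| ≤ 2 / 5 := by
    intro γ h
    set x : ℝ := (k1 : ℝ) * γ / (2 * Real.pi) with hx
    set y : ℝ := (k2 : ℝ) * γ / (2 * Real.pi) with hy
    refine ⟨⌊y⌋ - ⌊x⌋, ?_⟩
    have hval : ((k2 - k1 : ℕ) : ℝ) * γ - ((⌊y⌋ - ⌊x⌋ : ℤ) : ℝ) * (2 * Real.pi) =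
        2 * Real.pi * (Int.fract y - Int.fract x) := by
      have h1 : Int.fract y = y - ⌊y⌋ := rfl
      have h2 : Int.fract x = x - ⌊x⌋ := rfl
      rw [h1, h2, hcast, hx, hy]
      push_cast
      field_simp
      ring
    have hlt16 : |Int.fract y - Int.fract x| < 1 / 16 := by
      have := Int.abs_sub_lt_one_of_floor_eq_floor h
      rw [← mul_sub, abs_mul, abs_sub_comm] at this
      have h16 : |(16 : ℝ)| = 16 := by norm_num
      rw [h16] at this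
      linarith
    rw [hval, abs_mul, abs_of_pos (by positivity : (0 : ℝ) < 2 * Real.pi)]
    have h0 : 0 ≤ |Int.fract y - Int.fract x| := abs_nonneg _
    nlinarith
  obtain ⟨i, hi⟩ := key α (congrArg Prod.fst heq)
  obtain ⟨j, hj⟩ := key β (congrArg Prod.snd heq)
  exact ⟨k2 - k1, i, j, by omega, by omega, hi, hj⟩

/-- the exact value for all rotations by `(α, β)` such that the first `256` multiples of `α` and of
`β` are not multiples of `2π` -/
theorem exact256 (α β : ℝ)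
    (h : ∀ k : ℕ, 0 < k → k ≤ 256 → ∀ j : ℤ, k * α ≠ j * (2 * Real.pi) ∧
      k * β ≠ j * (2 * Real.pi)) :
    sInf {V : ℝ | ∃ g : Form 4, IsMetric g ∧ AbsSecLeOne g ∧ RotInvariant α β g ∧
      Pool.Agent.MinVolSphere.vol g = V} = 8 * Real.pi ^ 2 / 3 := by
  obtain ⟨k, i, j, h1, h2, h3, h4⟩ := dir2 α β
  exact fin_.2.1 α β k i j (abs_pos.2 (sub_ne_zero.2 (h k h1 h2 i).1)) h3
    (abs_pos.2 (sub_ne_zero.2 (h k h1 h2 j).2)) h4

end Pool.Agent.ZRT.H35
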